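import Pool.Agent.Helper16.Curl.Link

set_option autoImplicit false

namespace Pool.Agent.Results.MP_3455de_co.NecessaryFactors

open Pool.Agent.Helper16.Curl

/-- The curling numbers of the list `l`: the exponents `k` of the powers `Y ^ k` at its end. -/
def powers (l : List ℤ) : Set ℕ :=
  {k : ℕ | ∃ X Y : List ℤ, Y ≠ [] ∧ l = X ++ (List.replicate k Y).flatten}

/-- Let `f` be a curling sequence: `f 0` is nonempty and `f (n + 1)` is `f n` with its curling
number appended. Then either some `f m` has curling number `1`, or the starting list `f 0`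
contains the factor `2, 2, 2, 3` and the factor `3, 2`, and infinitely many `f n` end with
`2, 2, 2, 3, 2`. In particular the curling number conjecture holds for every starting list
which does not contain `2, 2, 2, 3` or does not contain `3, 2`. -/
theorem result (f : ℕ → List ℤ) (h0 : f 0 ≠ [])
    (hf : ∀ n : ℕ, ∃ c : ℕ, IsGreatest (powers (f n)) c ∧ f (n + 1) = f n ++ [(c : ℤ)]) :
    (∃ m : ℕ, IsGreatest (powers (f m)) 1) ∨
      ((∃ X Z : List ℤ, f 0 = X ++ [2, 2, 2, 3] ++ Z) ∧
        (∃ X Z : List ℤ, f 0 = X ++ [3, 2] ++ Z) ∧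
        ∀ T : ℕ, ∃ n, T ≤ n ∧ ∃ X : List ℤ, f n = X ++ [2, 2, 2, 3, 2]) := by
  by_cases hone : ∃ m : ℕ, IsGreatest (powers (f m)) 1
  · exact Or.inl hone
  right
  obtain ⟨w, hw⟩ := exists_word h0 (fun n => by
    obtain ⟨c, _, hc⟩ := hf n
    exact ⟨(c : ℤ), hc⟩)
  obtain ⟨N, hN⟩ : ∃ N, N = (f 0).length := ⟨_, rfl⟩
  rw [← hN] at hw
  have hN0 : 0 < N := by rw [hN]; exact List.length_pos_of_ne_nil h0
  have hcurl : ∀ n, w (N + n) = (K w (N + n) : ℤ) ∧ K w (N + n) ≠ 1 := by
    intro n
    obtain ⟨c, hc, hc2⟩ := hf n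
    unfold powers at hc
    rw [hw n, isGreatest_iff w (by omega)] at hc
    constructor
    · rw [hw (n + 1), hw n] at hc2
      have e : N + (n + 1) = N + n + 1 := by ring
      rw [e, List.range_succ, List.map_append] at hc2
      have h1 := List.append_cancel_left hc2
      simp only [List.map_cons, List.map_nil, List.cons.injEq, and_true] at h1
      rw [h1, hc]
    · intro h1
      refine hone ⟨n, ?_⟩
      unfold powers
      rw [hw n, isGreatest_iff w (by omega)]
      exact h1.symm
  have htail : Tail w N := by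
    refine ⟨by omega, ?_, ?_⟩
    · intro t ht
      obtain ⟨n, rfl⟩ : ∃ n, t = N + n := ⟨t - N, by omega⟩
      exact (hcurl n).1
    · intro t ht
      obtain ⟨n, rfl⟩ : ∃ n, t = N + n := ⟨t - N, by omega⟩
      have h1 := (hcurl n).2
      have h2 : 1 ≤ K w (N + n) := K_pos (by omega)
      rw [(hcurl n).1]
      have : 2 ≤ K w (N + n) := by omega
      exact_mod_cast this
  have hsplit : ∀ a l n : ℕ, a + l ≤ n →
      (List.range n).map w = (List.range a).map w ++ (List.range l).map (fun i => w (a + i)) ++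
        (List.range (n - (a + l))).map (fun i => w (a + l + i)) := by
    intro a l n h
    obtain ⟨d, rfl⟩ : ∃ d, n = a + l + d := ⟨n - (a + l), by omega⟩
    rw [Nat.add_sub_cancel_left, List.range_add, List.range_add]
    simp only [List.map_append, List.map_map]
    rfl
  refine ⟨?_, ?_, ?_⟩
  · obtain ⟨t, ht, e0, e1, e2, e3⟩ := htail.start_2223
    have h1 := hw 0
    rw [Nat.add_zero, hsplit t 4 N (by omega)] at h1
    refine ⟨(List.range t).map w, (List.range (N - (t + 4))).map (fun i => w (t + 4 + i)), ?_⟩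
    rw [h1]
    have h2 : (List.range 4).map (fun i => w (t + i)) = [2, 2, 2, 3] := by
      simp [List.range_succ, e0, e1, e2, e3]
    rw [h2]
  · obtain ⟨t, ht, e0, e1⟩ := htail.start_32
    have h1 := hw 0
    rw [Nat.add_zero, hsplit t 2 N (by omega)] at h1
    refine ⟨(List.range t).map w, (List.range (N - (t + 2))).map (fun i => w (t + 2 + i)), ?_⟩
    rw [h1]
    have h2 : (List.range 2).map (fun i => w (t + i)) = [3, 2] := by
      simp [List.range_succ, e0, e1]
    rw [h2]
  · intro T
    obtain ⟨t, ht, e0, e1, e2, e3, e4⟩ := htail.rec_22232 (N + T)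
    refine ⟨t + 5 - N, by omega, (List.range t).map w, ?_⟩
    have h1 := hw (t + 5 - N)
    have h3 : N + (t + 5 - N) = t + 5 := by omega
    rw [h3, hsplit t 5 (t + 5) le_rfl, Nat.sub_self] at h1
    rw [h1]
    have h2 : (List.range 5).map (fun i => w (t + i)) = [2, 2, 2, 3, 2] := by
      simp [List.range_succ, e0, e1, e2, e3, e4]
    rw [h2]
    simp

end Pool.Agent.Results.MP_3455de_co.NecessaryFactors
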