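import Pool.Agent.CurlF.Count
import Pool.Agent.CurlF.GeTwo

set_option autoImplicit false

namespace Pool.Agent.Results.MP_3455de_co.PositiveProportion

open Pool.Agent.CurlF Filter

/-- A single counterexample to the curling number conjecture gives a positive proportion of
counterexamples, so that the conjecture is equivalent to its almost all versions: (1) if the
immortal word `z` over the finite alphabet `B` omits the letter `c` of `B`, then for all `n` greater
than the length of `z` the proportion of the immortal words among the words of length `n` over `B`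
is at least `(8 / 9) * |B| ^ (-|z| - 1)`; (2) the conjecture holds if and only if for every finite
alphabet `B` this proportion tends to `0`; (3) the conjecture holds if and only if for every
alphabet `1, ..., M` the lower limit of this proportion is `0`. -/
theorem result :
    (∀ (B : Finset ℤ) (z : List ℤ) (c : ℤ) (n : ℕ), Immortal z → (∀ x ∈ z, x ∈ B) → c ∈ B →
      c ∉ z → z.length < n →
        8 * B.card ^ (n - z.length - 1) ≤ 9 * (immortals B n).ncard) ∧
    ((∀ f : ℕ → List ℤ, f 0 ≠ [] → IsCurling f → ∃ m : ℕ, IsGreatest (powers (f m)) 1) ↔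
      ∀ B : Finset ℤ,
        Tendsto (fun n : ℕ => ((immortals B n).ncard : ℝ) / (B.card : ℝ) ^ n) atTop (nhds 0)) ∧
    ((∀ f : ℕ → List ℤ, f 0 ≠ [] → IsCurling f → ∃ m : ℕ, IsGreatest (powers (f m)) 1) ↔
      ∀ (M : ℕ) (ε : ℝ), 0 < ε →
        ∃ᶠ n : ℕ in atTop, ((immortals (Finset.Icc 1 (M : ℤ)) n).ncard : ℝ) ≤ ε * (M : ℝ) ^ n) := by
  have hmany := fun (B : Finset ℤ) (z : List ℤ) (c : ℤ) (n : ℕ) (hz : Immortal z)
    (hzB : ∀ x ∈ z, x ∈ B) (hcB : c ∈ B) (hcz : c ∉ z) (hn : z.length < n) =>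
    many_immortals B hz hzB hcB hcz hn
  have hcard : ∀ M : ℕ, (Finset.Icc 1 (M : ℤ)).card = M := by
    intro M
    rw [Int.card_Icc]
    omega
  -- the conjecture implies that there are no immortal words
  have h0 : (∀ f : ℕ → List ℤ, f 0 ≠ [] → IsCurling f → ∃ m : ℕ, IsGreatest (powers (f m)) 1) →
      ∀ (B : Finset ℤ) (n : ℕ), immortals B n = ∅ := by
    intro h B n
    rw [Set.eq_empty_iff_forall_notMem]
    rintro S ⟨_, _, hS0, f, hf0, hf, hone⟩
    obtain ⟨m, hm⟩ := h f (hf0 ▸ hS0) hf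
    exact hone m hm
  have h12 : (∀ f : ℕ → List ℤ, f 0 ≠ [] → IsCurling f → ∃ m : ℕ, IsGreatest (powers (f m)) 1) →
      ∀ B : Finset ℤ,
        Tendsto (fun n : ℕ => ((immortals B n).ncard : ℝ) / (B.card : ℝ) ^ n) atTop (nhds 0) := by
    intro h B
    simp only [h0 h B, Set.ncard_empty, Nat.cast_zero, zero_div]
    exact tendsto_const_nhds
  have h23 : (∀ B : Finset ℤ,
        Tendsto (fun n : ℕ => ((immortals B n).ncard : ℝ) / (B.card : ℝ) ^ n) atTop (nhds 0)) →
      ∀ (M : ℕ) (ε : ℝ), 0 < ε →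
        ∃ᶠ n : ℕ in atTop,
          ((immortals (Finset.Icc 1 (M : ℤ)) n).ncard : ℝ) ≤ ε * (M : ℝ) ^ n := by
    intro h M ε hε
    refine Eventually.frequently ?_
    have h1 := (tendsto_order.1 (h (Finset.Icc 1 (M : ℤ)))).2 ε hε
    rw [hcard] at h1
    filter_upwards [h1, eventually_gt_atTop 0] with n hn hn0
    rcases Nat.eq_zero_or_pos M with rfl | hM
    · have h2 : immortals (Finset.Icc 1 ((0 : ℕ) : ℤ)) n = ∅ := by
        rw [Set.eq_empty_iff_forall_notMem]
        rintro S ⟨hSn, hSB, _⟩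
        obtain ⟨a, ha⟩ := List.exists_mem_of_length_pos (by omega : 0 < S.length)
        have := hSB a ha
        simp at this
      rw [h2]
      simp only [Set.ncard_empty, Nat.cast_zero]
      positivity
    · have h3 : (0 : ℝ) < (M : ℝ) ^ n := by
        have : (0 : ℝ) < (M : ℝ) := by exact_mod_cast hM
        positivity
      rw [div_lt_iff₀ h3] at hn
      exact hn.le
  have h31 : (∀ (M : ℕ) (ε : ℝ), 0 < ε →
        ∃ᶠ n : ℕ in atTop,
          ((immortals (Finset.Icc 1 (M : ℤ)) n).ncard : ℝ) ≤ ε * (M : ℝ) ^ n) →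
      ∀ f : ℕ → List ℤ, f 0 ≠ [] → IsCurling f → ∃ m : ℕ, IsGreatest (powers (f m)) 1 := by
    intro h f hf0 hf
    by_contra hne
    push Not at hne
    obtain ⟨z, hz, hz2, _⟩ := exists_ge_two (z := f 0) ⟨hf0, f, rfl, hf, hne⟩
    obtain ⟨M, hM⟩ := exists_bound z
    obtain ⟨a, ha⟩ := List.exists_mem_of_ne_nil _ hz.1
    have hM2 : 2 ≤ M := by
      have h1 := hz2 a ha
      have h2 := hM a ha
      omega
    have hcz : (1 : ℤ) ∉ z := fun h1 => by
      have := hz2 1 h1
      omega
    have hzB : ∀ x ∈ z, x ∈ Finset.Icc 1 (M : ℤ) := fun x hx => by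
      rw [Finset.mem_Icc]
      exact ⟨by have := hz2 x hx; omega, hM x hx⟩
    have hcB : (1 : ℤ) ∈ Finset.Icc 1 (M : ℤ) := by
      rw [Finset.mem_Icc]
      omega
    have hq : (0 : ℝ) < (M : ℝ) := by
      have : 0 < M := by omega
      exact_mod_cast this
    have hε : (0 : ℝ) < 1 / (2 * (M : ℝ) ^ (z.length + 1)) := by positivity
    have h1 := (h M _ hε).and_eventually (eventually_gt_atTop z.length)
    obtain ⟨n, hn1, hn2⟩ := h1.exists
    have h2 := hmany _ z 1 n hz hzB hcB hcz hn2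
    rw [hcard] at h2
    obtain ⟨N, rfl⟩ : ∃ N, n = N + (z.length + 1) := ⟨n - (z.length + 1), by omega⟩
    have e : N + (z.length + 1) - z.length - 1 = N := by omega
    rw [e] at h2
    have h3 : (8 : ℝ) * (M : ℝ) ^ N ≤
        9 * ((immortals (Finset.Icc 1 (M : ℤ)) (N + (z.length + 1))).ncard : ℝ) := by
      exact_mod_cast h2
    have h4 : 1 / (2 * (M : ℝ) ^ (z.length + 1)) *
        (M : ℝ) ^ (N + (z.length + 1)) = (M : ℝ) ^ N / 2 := by
      rw [pow_add]
      field_simp
      ring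
    rw [h4] at hn1
    have h5 : (0 : ℝ) < (M : ℝ) ^ N := by positivity
    linarith
  exact ⟨hmany, ⟨h12, fun h => h31 (h23 h)⟩, ⟨fun h => h23 (h12 h), h31⟩⟩

end Pool.Agent.Results.MP_3455de_co.PositiveProportion
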