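import Pool.Agent.CurlF.Main

set_option autoImplicit false

namespace Pool.Agent.Results.MP_3455de_co.ReturnWords

open Pool.Agent.CurlF

theorem unbord_of {u : List ℤ} (h : ∀ v ∈ u.inits, v ≠ [] → v ∈ u.tails → v = u) : Unbord u :=
  fun v h1 h2 h3 => h v ((List.mem_inits _ _).2 h2) h1 ((List.mem_tails _ _).2 h3)

theorem noSq_of {u : List ℤ} (h : ∀ Y ∈ u.tails, Y ≠ [] → ¬ (Y ++ Y) ∈ u.tails) : NoSq u :=
  fun Y h1 h2 => h Y ((List.mem_tails _ _).2 ((List.suffix_append Y Y).trans h2)) h1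
    ((List.mem_tails _ _).2 h2)

/-- Let `f` be a curling sequence: `f 0` is nonempty and `f (n + 1)` is `f n` with its curling
number appended. Then either some `f m` has curling number `1`, or there is
`B = 3, 3, 2` or `B = 2, 3, 3, 3, 3, 4` such that each of the words `u = 3, 2`, `u = 2, 2, 2, 3` and
`u = B` has the following property. Let `m` be arbitrary and cut `f m = X ++ W` at the end of the
last occurrence of `u`, and let `c` be the curling number of `f m`. Then there is a word `R` which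
begins with `W ++ [c]` and contains `u` exactly once, at its end, such that `u ++ R` is a factor of
`X` or `R` is a suffix of `X`. In particular `W ++ [c]` is a factor of `X`, and `u` occurs in
`f 0`. -/
theorem result (f : ℕ → List ℤ) (h0 : f 0 ≠ [])
    (hf : ∀ n : ℕ, ∃ c : ℕ, IsGreatest (powers (f n)) c ∧ f (n + 1) = f n ++ [(c : ℤ)]) :
    (∃ m : ℕ, IsGreatest (powers (f m)) 1) ∨
      ∃ B : List ℤ, (B = [3, 3, 2] ∨ B = [2, 3, 3, 3, 3, 4]) ∧
        ∀ u : List ℤ, (u = [3, 2] ∨ u = [2, 2, 2, 3] ∨ u = B) →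
          ∀ (m c : ℕ) (X W : List ℤ), f m = X ++ W → IsGreatest (powers (f m)) c →
            LastEnd u X W →
              ∃ R : List ℤ, (W ++ [(c : ℤ)]) <+: R ∧ u <:+ R ∧
                (∀ V : List ℤ, V <+: R → u <:+ V → V = R) ∧
                  ((u ++ R) <:+: X ∨ R <:+ X) := by
  by_cases hone : ∃ m : ℕ, IsGreatest (powers (f m)) 1
  · exact Or.inl hone
  right
  have hnec := (nec f h0 hf).resolve_left hone
  have hadj := (adj f h0 hf).resolve_left hone
  have h32 : ∀ T : ℕ, ∃ n, T ≤ n ∧ ([3, 2] : List ℤ) <:+ f n := by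
    intro T
    obtain ⟨n, hn, X, hX⟩ := hnec.2.2 T
    exact ⟨n, hn, X ++ [2, 2, 2], by rw [hX]; simp⟩
  have h2223 : ∀ T : ℕ, ∃ n, T ≤ n ∧ ([2, 2, 2, 3] : List ℤ) <:+ f n := by
    intro T
    obtain ⟨n, hn, X, hX⟩ := hnec.2.2 (T + 1)
    obtain ⟨k, rfl⟩ : ∃ k, n = k + 1 := ⟨n - 1, by omega⟩
    obtain ⟨c, _, hc⟩ := hf k
    refine ⟨k, by omega, X, ?_⟩
    rw [hc] at hX
    have e : X ++ [2, 2, 2, 3, 2] = (X ++ [2, 2, 2, 3]) ++ [(2 : ℤ)] := by simp
    rw [e] at hX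
    exact ((List.append_inj' hX rfl).1).symm
  obtain ⟨B, hB, hBinf⟩ : ∃ B : List ℤ, (B = [3, 3, 2] ∨ B = [2, 3, 3, 3, 3, 4]) ∧
      ∀ T : ℕ, ∃ n, T ≤ n ∧ B <:+ f n := by
    by_cases h : ∀ T : ℕ, ∃ n, T ≤ n ∧ ([3, 3, 2] : List ℤ) <:+ f n
    · exact ⟨_, Or.inl rfl, h⟩
    · push Not at h
      obtain ⟨T0, hT0⟩ := h
      refine ⟨_, Or.inr rfl, fun T => ?_⟩
      obtain ⟨n, hn, X, hX | hX⟩ := hadj.2 (max T T0)
      · exact absurd ⟨X, hX.symm⟩ (hT0 n (le_trans (le_max_right _ _) hn))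
      · exact ⟨n, le_trans (le_max_left _ _) hn, X, hX.symm⟩
  refine ⟨B, hB, ?_⟩
  intro u hu m c X W hm hc hL
  have hcomb : Unbord u ∧ NoSq u ∧ u ≠ [] ∧ ∀ T : ℕ, ∃ n, T ≤ n ∧ u <:+ f n := by
    rcases hu with rfl | rfl | rfl
    · exact ⟨unbord_of (by decide), noSq_of (by decide), by decide, h32⟩
    · exact ⟨unbord_of (by decide), noSq_of (by decide), by decide, h2223⟩
    · rcases hB with rfl | rfl
      · exact ⟨unbord_of (by decide), noSq_of (by decide), by decide, hBinf⟩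
      · exact ⟨unbord_of (by decide), noSq_of (by decide), by decide, hBinf⟩
  exact ret_seq h0 hf hone hcomb.1 hcomb.2.1 hcomb.2.2.1 hcomb.2.2.2 m c X W hm hc hL

end Pool.Agent.Results.MP_3455de_co.ReturnWords
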